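import Pool.Agent.Y453.UF.Asm2
import Pool.Agent.Y453.UF.Asm3
import Pool.Agent.Y453.UF.Asm4
import Pool.Agent.Y814.UF.TQ4

/-!
# MP_9b3cbe_gt: unimodular forms from cohomology classes of the torus

A stronger form of the starting result `E8Arises` (which shows that `10 H ⊕ E8` arises for `n = 8`).
For `n ≥ 4` and a class `ω ∈ H^(n-4)(Z^n)` let `φ_ω` be the form `x y ω = φ_ω(x, y) [T]` on
`H^2(Z^n)`. Even indefinite unimodular forms are `k H ⊕ l (± E8)`.

* Some unimodular form arises if and only if `n = 0, 1 mod 4` and `n ≠ 5`.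
* If `k H ⊕ l (± E8)` arises then `k ≥ n - 1` (and `2 k + 8 l = n (n - 1) / 2`).
* For `n = 4 m` all forms `k H ⊕ l (± E8)` of the right rank with `l ≤ m (m - 1) / 2` arise; for
  `n = 4 m + 1`, `m ≥ 2`, all those with `l ≤ (m - 2) (m - 3) / 2` arise. (The bound `k ≥ n - 1`
  says `l ≤ (n - 1) (n - 4) / 16`, so asymptotically at least half of the possible range of the
  signature is realised.)
* For `n = 8` the unimodular forms which arise are exactly `14 H`, `10 H ⊕ E8` and `10 H ⊕ (-E8)`.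

Proof. By duality `ω` is an alternating four-form `w` and `φ_ω(x, y) = w(x ∧ y)`. The classes
`e_1 e_i` span an isotropic subgroup of rank `n - 1`, whence `k ≥ n - 1`. On a sum
`Z^a ⊕ Z^b` take `w = w_a + w_b + Σ α_i ∧ β_i`, where the two-forms `α_i` on `Z^a` span an isotropic
subgroup for the inverse of the (unimodular) form of `w_a`; then the form of `w` is the orthogonal
sum of those of `w_a`, `w_b` and of `- Σ α_i ⊗ β_i` on `Z^a ⊗ Z^b`. For `a = 8` there are explicit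
`w_a` with forms `14 H` and `10 H ⊕ E8` and triples `α_i` for which the tensor part is hyperbolic,
respectively `8 H ⊕ 2 E8` for every summand `Z^4` of `Z^b`.

Parts of the proof were done by helpers 780 (duality), 983 (skew matrices), 953 (direct sums), 917,
675, 528, 441, 814 (tensor parts), 96 (sums), 154 (signs), 901 (isotropic subgroups), 235 (the
classes `e_1 e_i`), 641 (evenness), 87 (odd size), 555 (rank, `n = 5`).
-/

set_option autoImplicit false

namespace Pool.Agent.Results.MP_9b3cbe_gt.ArisingForms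

open Pool.Agent.Results.MP_9b3cbe_gt.E8Arises
open Pool.Agent.Y453.UF

/-- the inverse of the Cartan matrix of `E8` -/
def e8inv : Matrix (Fin 8) (Fin 8) ℤ :=
  !![4, 5, 7, 10, 8, 6, 4, 2;
    5, 8, 10, 15, 12, 9, 6, 3;
    7, 10, 14, 20, 16, 12, 8, 4;
    10, 15, 20, 30, 24, 18, 12, 6;
    8, 12, 16, 24, 20, 15, 10, 5;
    6, 9, 12, 18, 15, 12, 8, 4;
    4, 6, 8, 12, 10, 8, 6, 3;
    2, 3, 4, 6, 5, 4, 3, 2]

theorem e8_mul : CartanMatrix.E₈ * e8inv = 1 := by decide +kernel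

theorem gram_unit (k l : ℕ) (s : ℤ) (hs : s = 1 ∨ s = -1) : IsUnit (gram k l s).det := by
  apply Matrix.isUnit_det_of_right_inverse (B := Matrix.fromBlocks
    (Matrix.blockDiagonal fun _ : Fin k => !![0, 1; 1, 0]) 0 0
    (Matrix.blockDiagonal fun _ : Fin l => s • e8inv))
  unfold gram
  rw [Matrix.fromBlocks_multiply]
  simp only [Matrix.zero_mul, Matrix.mul_zero, add_zero, zero_add]
  rw [← Matrix.blockDiagonal_mul, ← Matrix.blockDiagonal_mul]
  have h1 : (!![0, 1; 1, 0] : Matrix (Fin 2) (Fin 2) ℤ) * !![0, 1; 1, 0] = 1 := by decide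
  have h2 : (s • CartanMatrix.E₈) * (s • e8inv) = (1 : Matrix (Fin 8) (Fin 8) ℤ) := by
    rw [Matrix.smul_mul, Matrix.mul_smul, e8_mul, smul_smul]
    rcases hs with rfl | rfl <;> simp
  simp only [h1, h2]
  have h3 : (fun _ : Fin k => (1 : Matrix (Fin 2) (Fin 2) ℤ)) = 1 := rfl
  have h4 : (fun _ : Fin l => (1 : Matrix (Fin 8) (Fin 8) ℤ)) = 1 := rfl
  rw [h3, h4, Matrix.blockDiagonal_one, Matrix.blockDiagonal_one, Matrix.fromBlocks_one]

/-- existence -/
theorem exists_form {n : ℕ} (hn : 4 ≤ n) {T : CohRing n} (hT : IsTopGenerator T) {k l : ℕ} {s : ℤ}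
    (hs : s = 1 ∨ s = -1) (hr : 4 * k + 16 * l = n * (n - 1))
    (h : (n % 4 = 0 ∧ 2 * l ≤ n / 4 * (n / 4 - 1)) ∨
      (n % 4 = 1 ∧ 9 ≤ n ∧ 2 * l ≤ (n / 4 - 2) * (n / 4 - 3))) :
    Arises T (gram k l s) := by
  have hex : ∃ k', 4 * k' + 16 * l = n * (n - 1) ∧ Ex n k' l := by
    rcases h with ⟨h0, h1⟩ | ⟨h0, h1, h2⟩
    · obtain ⟨j, rfl⟩ : ∃ j, n = 4 * (j + 1) := ⟨n / 4 - 1, by omega⟩
      have e : 4 * (j + 1) / 4 = j + 1 := by omega
      rw [e, Nat.add_sub_cancel] at h1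
      exact (ex_even Pool.Agent.Y814.UF.tq4 j).1 l h1
    · obtain ⟨t, rfl⟩ : ∃ t, n = 9 + 4 * t := ⟨n / 4 - 2, by omega⟩
      have e : (9 + 4 * t) / 4 = t + 2 := by omega
      have e2 : t + 2 - 3 = t - 1 := by omega
      rw [e, Nat.add_sub_cancel, e2] at h2
      exact ex_odd_quad Pool.Agent.Y814.UF.tq4 t l h2
  obtain ⟨k', hk', hE⟩ := hex
  have : k' = k := by omega
  subst this
  exact arises_of_ex hn hT hE s hs

/-- **Main theorem.** Let `n ≥ 4` and let `T` be a generator of `H^n(Z^n)`.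

(0) The forms `k H ⊕ l (s E8)`, `s = ± 1`, are unimodular.
(1) Such a form arises for `n` if and only if `n = 0, 1 mod 4` and `n ≠ 5`.
(2) Every form that arises is symmetric and even and has an isotropic subgroup of rank `n - 1`; if it
is unimodular then `n = 0, 1 mod 4` and `n ≠ 5`.
(3) If `k H ⊕ l (s E8)` arises then its rank is `n (n - 1) / 2` and `k ≥ n - 1`.
(4) All forms `k H ⊕ l (s E8)` of rank `n (n - 1) / 2` arise if `n = 4 m` and `l ≤ m (m - 1) / 2`, or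
if `n = 4 m + 1`, `m ≥ 2` and `l ≤ (m - 2) (m - 3) / 2`.
(5) For `n = 8` exactly `14 H` and `10 H ⊕ (± E8)` arise. -/
theorem result (n : ℕ) (hn : 4 ≤ n) (T : CohRing n) (hT : IsTopGenerator T) :
    (∀ (k l : ℕ) (s : ℤ), s = 1 ∨ s = -1 → IsUnit (gram k l s).det) ∧
    ((∃ (k l : ℕ) (s : ℤ), (s = 1 ∨ s = -1) ∧ Arises T (gram k l s)) ↔
      (n % 4 = 0 ∨ n % 4 = 1) ∧ n ≠ 5) ∧
    (∀ (ι : Type) [Fintype ι] [DecidableEq ι] (M : Matrix ι ι ℤ), Arises T M →
      M.IsSymm ∧ (∀ i, Even (M i i)) ∧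
      (∃ v : Fin (n - 1) → (ι → ℤ), LinearIndependent ℤ v ∧
        ∀ a b, v a ⬝ᵥ M.mulVec (v b) = 0) ∧
      (IsUnit M.det → (n % 4 = 0 ∨ n % 4 = 1) ∧ n ≠ 5)) ∧
    (∀ (k l : ℕ) (s : ℤ), s = 1 ∨ s = -1 → Arises T (gram k l s) →
      4 * k + 16 * l = n * (n - 1) ∧ n - 1 ≤ k) ∧
    (∀ (k l : ℕ) (s : ℤ), s = 1 ∨ s = -1 → 4 * k + 16 * l = n * (n - 1) →
      (n % 4 = 0 ∧ 2 * l ≤ n / 4 * (n / 4 - 1)) ∨
        (n % 4 = 1 ∧ 9 ≤ n ∧ 2 * l ≤ (n / 4 - 2) * (n / 4 - 3)) →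
      Arises T (gram k l s)) ∧
    (n = 8 → ∀ (k l : ℕ) (s : ℤ), s = 1 ∨ s = -1 →
      (Arises T (gram k l s) ↔ (k = 14 ∧ l = 0) ∨ (k = 10 ∧ l = 1))) := by
  refine ⟨gram_unit, ⟨?_, ?_⟩, ?_, ?_, ?_, ?_⟩
  · rintro ⟨k, l, s, hs, h⟩
    exact mod_four hn hT h (gram_unit k l s hs)
  · rintro ⟨h1, h5⟩
    have hk : ∃ k, 4 * k + 16 * 0 = n * (n - 1) := by
      obtain ⟨q, r, hq, hr⟩ : ∃ q r, n = 4 * q + r ∧ (r = 0 ∨ r = 1) :=
        ⟨n / 4, n % 4, by omega, by omega⟩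
      rcases hr with rfl | rfl
      · exact ⟨q * (n - 1), by rw [hq]; ring⟩
      · refine ⟨n * q, ?_⟩
        have : n - 1 = 4 * q := by omega
        rw [this]; ring
    obtain ⟨k, hk⟩ := hk
    refine ⟨k, 0, 1, Or.inl rfl, exists_form hn hT (Or.inl rfl) hk ?_⟩
    rcases h1 with h1 | h1
    · exact Or.inl ⟨h1, Nat.zero_le _⟩
    · exact Or.inr ⟨h1, by omega, Nat.zero_le _⟩
  · intro ι _ _ M h
    obtain ⟨h1, h2⟩ := symm_even hn hT h
    exact ⟨h1, h2, isotropic hn hT h, mod_four hn hT h⟩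
  · intro k l s hs h
    exact ⟨rank_gram h, planes_le hn hT hs h⟩
  · intro k l s hs hr h
    exact exists_form hn hT hs hr h
  · rintro rfl k l s hs
    constructor
    · intro h
      have h1 := rank_gram h
      have h2 := planes_le hn hT hs h
      omega
    · rintro (⟨rfl, rfl⟩ | ⟨rfl, rfl⟩)
      · exact exists_form hn hT hs (by norm_num) (Or.inl ⟨by norm_num, by norm_num⟩)
      · exact exists_form hn hT hs (by norm_num) (Or.inl ⟨by norm_num, by norm_num⟩)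

end Pool.Agent.Results.MP_9b3cbe_gt.ArisingForms
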